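import Pool.Agent.H98.S4.Targets

/-!
# MP_eb32d7_co: module A1 (two vertices of one block with two common neighbours in one block)
-/

set_option autoImplicit false

namespace Pool.Agent.H35.S4

open Pool.Agent.H98.S4 Finset

/-- a block with four elements two of which are known -/
private theorem blk_two {V β : Type} [Fintype V] [DecidableEq V] [DecidableEq β] {f : V → β}
    (hb : Blk4 f) {u v : V} (huv : u ≠ v) (hf : f u = f v) :
    ∃ p q : V, p ≠ q ∧ p ≠ u ∧ p ≠ v ∧ q ≠ u ∧ q ≠ v ∧ f p = f u ∧ f q = f u ∧
      ∀ x, f x = f u → x = u ∨ x = v ∨ x = p ∨ x = q := by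
  have h4 := hb u
  have hu : u ∈ univ.filter (fun x => f x = f u) := by simp
  have hv : v ∈ (univ.filter (fun x => f x = f u)).erase u := by
    simp [huv.symm, hf]
  have h2 : (((univ.filter (fun x => f x = f u)).erase u).erase v).card = 2 := by
    rw [card_erase_of_mem hv, card_erase_of_mem hu, h4]
  obtain ⟨p, q, hpq, he⟩ := card_eq_two.1 h2
  have hp : p ∈ ((univ.filter (fun x => f x = f u)).erase u).erase v := by rw [he]; simp
  have hq : q ∈ ((univ.filter (fun x => f x = f u)).erase u).erase v := by rw [he]; simp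
  simp only [mem_erase, mem_filter, mem_univ, true_and, ne_eq] at hp hq
  refine ⟨p, q, hpq, hp.2.1, hp.1, hq.2.1, hq.1, hp.2.2, hq.2.2, ?_⟩
  intro x hx
  by_cases h1 : x = u
  · exact Or.inl h1
  by_cases h3 : x = v
  · exact Or.inr (Or.inl h3)
  have : x ∈ ((univ.filter (fun x => f x = f u)).erase u).erase v := by
    simp [h1, h3, hx]
  rw [he] at this
  simp only [mem_insert, mem_singleton] at this
  exact Or.inr (Or.inr this)

theorem s4_A1 : T_A1 := by
  intro V β _ _ _ G f hdeg hblk hr0 hall u v w t huv hwt hfuv huw hvw hut hvt hfwt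
  classical
  have hne : f u ≠ f w := hr0 u w huw
  obtain ⟨p, q, hpq, hpu, hpv, hqu, hqv, hfp, hfq, hbu⟩ := blk_two hblk huv hfuv
  obtain ⟨r, s, hrs, hrw, hrt, hsw, hst, hfr, hfs, hbw⟩ := blk_two hblk hwt hfwt
  -- vertices in different blocks are different
  have hdiff : ∀ x y : V, f x = f u → f y = f w → x ≠ y := by
    intro x y hx hy h
    rw [h] at hx
    exact hne (hx.symm.trans hy)
  have hft : f t = f w := hfwt.symm
  have hfv : f v = f u := hfuv.symm
  let V' : Type := {x : V // x ≠ u ∧ x ≠ v ∧ x ≠ w ∧ x ≠ t}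
  let f' : V' → β := fun x => if f x.1 = f w then f u else f x.1
  have hcard : Fintype.card V' < Fintype.card V := by
    apply Fintype.card_subtype_lt (x := u)
    simp
  have hdeg' : Deg2 (G.comap (Subtype.val : V' → V)) := by
    intro x a b c ha hb hc
    rcases hdeg x.1 a.1 b.1 c.1 ha hb hc with h | h | h
    · exact Or.inl (Subtype.ext h)
    · exact Or.inr (Or.inl (Subtype.ext h))
    · exact Or.inr (Or.inr (Subtype.ext h))
  have hp' : p ≠ u ∧ p ≠ v ∧ p ≠ w ∧ p ≠ t :=
    ⟨hpu, hpv, hdiff p w hfp rfl, hdiff p t hfp hft⟩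
  have hq' : q ≠ u ∧ q ≠ v ∧ q ≠ w ∧ q ≠ t :=
    ⟨hqu, hqv, hdiff q w hfq rfl, hdiff q t hfq hft⟩
  have hr' : r ≠ u ∧ r ≠ v ∧ r ≠ w ∧ r ≠ t :=
    ⟨(hdiff u r rfl hfr).symm, (hdiff v r hfv hfr).symm, hrw, hrt⟩
  have hs' : s ≠ u ∧ s ≠ v ∧ s ≠ w ∧ s ≠ t :=
    ⟨(hdiff u s rfl hfs).symm, (hdiff v s hfv hfs).symm, hsw, hst⟩
  have sne : ∀ (x y : V) (hx : x ≠ u ∧ x ≠ v ∧ x ≠ w ∧ x ≠ t)
      (hy : y ≠ u ∧ y ≠ v ∧ y ≠ w ∧ y ≠ t), x ≠ y → (⟨x, hx⟩ : V') ≠ ⟨y, hy⟩ :=
    fun x y hx hy h h' => h (congrArg Subtype.val h')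
  have hblk' : Blk4 f' := by
    intro x
    by_cases hx : f' x = f u
    · have h1 : (univ.filter (fun y : V' => f' y = f' x)) =
          ({⟨p, hp'⟩, ⟨q, hq'⟩, ⟨r, hr'⟩, ⟨s, hs'⟩} : Finset V') := by
        ext y
        simp only [mem_filter, mem_univ, true_and, mem_insert, mem_singleton]
        rw [hx]
        constructor
        · intro hy
          by_cases h2 : f y.1 = f w
          · rcases hbw y.1 h2 with h | h | h | h
            · exact absurd h y.2.2.2.1
            · exact absurd h y.2.2.2.2
            · exact Or.inr (Or.inr (Or.inl (Subtype.ext h)))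
            · exact Or.inr (Or.inr (Or.inr (Subtype.ext h)))
          · have h3 : f y.1 = f u := by
              simpa [f', h2] using hy
            rcases hbu y.1 h3 with h | h | h | h
            · exact absurd h y.2.1
            · exact absurd h y.2.2.1
            · exact Or.inl (Subtype.ext h)
            · exact Or.inr (Or.inl (Subtype.ext h))
        · rintro (h | h | h | h)
          · subst h; simp [f', hfp, hne]
          · subst h; simp [f', hfq, hne]
          · subst h; simp [f', hfr]
          · subst h; simp [f', hfs]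
      rw [h1]
      have e1 : p ≠ r := hdiff p r hfp hfr
      have e2 : p ≠ s := hdiff p s hfp hfs
      have e3 : q ≠ r := hdiff q r hfq hfr
      have e4 : q ≠ s := hdiff q s hfq hfs
      rw [card_insert_of_notMem, card_insert_of_notMem, card_insert_of_notMem, card_singleton]
      · rw [mem_singleton]; exact sne _ _ _ _ hrs
      · rw [mem_insert, mem_singleton]
        rintro (h | h)
        · exact sne _ _ _ _ e3 h
        · exact sne _ _ _ _ e4 h
      · rw [mem_insert, mem_insert, mem_singleton]
        rintro (h | h | h)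
        · exact sne _ _ _ _ hpq h
        · exact sne _ _ _ _ e1 h
        · exact sne _ _ _ _ e2 h
    · have hxw : f x.1 ≠ f w := by
        intro h
        exact hx (by simp [f', h])
      have hfx : f' x = f x.1 := by simp [f', hxw]
      have hxu : f x.1 ≠ f u := by rwa [hfx] at hx
      have h4 := hblk x.1
      have h1 : (univ.filter (fun y : V' => f' y = f' x)).map (Function.Embedding.subtype _) =
          univ.filter (fun y : V => f y = f x.1) := by
        ext y
        simp only [mem_map, mem_filter, mem_univ, true_and, Function.Embedding.subtype_apply]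
        constructor
        · rintro ⟨z, hz, rfl⟩
          rw [hfx] at hz
          by_cases h2 : f z.1 = f w
          · exfalso
            have : f' z = f u := by simp [f', h2]
            exact hxu (hz.symm.trans this)
          · have : f' z = f z.1 := by simp [f', h2]
            exact this.symm.trans hz
        · intro hy
          refine ⟨⟨y, ?_, ?_, ?_, ?_⟩, ?_, rfl⟩
          · rintro rfl; exact hxu hy.symm
          · rintro rfl; exact hxu (hy.symm.trans hfv)
          · rintro rfl; exact hxw hy.symm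
          · rintro rfl; exact hxw (hy.symm.trans hft)
          · have h2 : f y ≠ f w := by rw [hy]; exact hxw
            rw [hfx]
            simp only [f', h2, if_false]
            exact hy
      rw [← card_map (Function.Embedding.subtype _), h1, h4]
  obtain ⟨c, hc1, hc2⟩ := hall V' β (G.comap (Subtype.val : V' → V)) f' hcard hdeg' hblk'
  -- the four colours
  have hfp' : f' ⟨p, hp'⟩ = f u := by simp [f', hfp, hne]
  have hfq' : f' ⟨q, hq'⟩ = f u := by simp [f', hfq, hne]
  have hfr' : f' ⟨r, hr'⟩ = f u := by simp [f', hfr]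
  have hfs' : f' ⟨s, hs'⟩ = f u := by simp [f', hfs]
  have cpq : c ⟨p, hp'⟩ ≠ c ⟨q, hq'⟩ := hc2 _ _ (hfp'.trans hfq'.symm)
    (sne _ _ _ _ hpq)
  have cpr : c ⟨p, hp'⟩ ≠ c ⟨r, hr'⟩ := hc2 _ _ (hfp'.trans hfr'.symm)
    (sne _ _ _ _ (hdiff p r hfp hfr))
  have cps : c ⟨p, hp'⟩ ≠ c ⟨s, hs'⟩ := hc2 _ _ (hfp'.trans hfs'.symm)
    (sne _ _ _ _ (hdiff p s hfp hfs))
  have cqr : c ⟨q, hq'⟩ ≠ c ⟨r, hr'⟩ := hc2 _ _ (hfq'.trans hfr'.symm)
    (sne _ _ _ _ (hdiff q r hfq hfr))
  have cqs : c ⟨q, hq'⟩ ≠ c ⟨s, hs'⟩ := hc2 _ _ (hfq'.trans hfs'.symm)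
    (sne _ _ _ _ (hdiff q s hfq hfs))
  have crs : c ⟨r, hr'⟩ ≠ c ⟨s, hs'⟩ := hc2 _ _ (hfr'.trans hfs'.symm)
    (sne _ _ _ _ hrs)
  -- the colouring
  let col : V → Fin 4 := fun x =>
    if hx : x ≠ u ∧ x ≠ v ∧ x ≠ w ∧ x ≠ t then c ⟨x, hx⟩
    else if x = w then c ⟨p, hp'⟩ else if x = t then c ⟨q, hq'⟩
    else if x = u then c ⟨r, hr'⟩ else c ⟨s, hs'⟩
  have huw' : u ≠ w := hdiff u w rfl rfl
  have hut' : u ≠ t := hdiff u t rfl hft
  have hvw' : v ≠ w := hdiff v w hfv rfl
  have hvt' : v ≠ t := hdiff v t hfv hft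
  have col1 : ∀ (x : V) (hx : x ≠ u ∧ x ≠ v ∧ x ≠ w ∧ x ≠ t), col x = c ⟨x, hx⟩ := by
    intro x hx
    simp only [col]
    rw [dif_pos hx]
  have colw : col w = c ⟨p, hp'⟩ := by
    simp [col]
  have colt : col t = c ⟨q, hq'⟩ := by
    simp [col, hwt.symm]
  have colu : col u = c ⟨r, hr'⟩ := by
    simp [col, huw', hut']
  have colv : col v = c ⟨s, hs'⟩ := by
    simp [col, hvw', hvt', huv.symm]
  have colp : col p = c ⟨p, hp'⟩ := col1 p hp'
  have colq : col q = c ⟨q, hq'⟩ := col1 q hq'
  have colr : col r = c ⟨r, hr'⟩ := col1 r hr'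
  have cols : col s = c ⟨s, hs'⟩ := col1 s hs'
  -- neighbours
  have nu : ∀ y, G.Adj u y → y = w ∨ y = t := by
    intro y hy
    rcases hdeg u w t y huw hut hy with h | h | h
    · exact absurd h hwt
    · exact Or.inl h.symm
    · exact Or.inr h.symm
  have nv : ∀ y, G.Adj v y → y = w ∨ y = t := by
    intro y hy
    rcases hdeg v w t y hvw hvt hy with h | h | h
    · exact absurd h hwt
    · exact Or.inl h.symm
    · exact Or.inr h.symm
  have nw : ∀ y, G.Adj w y → y = u ∨ y = v := by
    intro y hy
    rcases hdeg w u v y huw.symm hvw.symm hy with h | h | h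
    · exact absurd h huv
    · exact Or.inl h.symm
    · exact Or.inr h.symm
  have nt : ∀ y, G.Adj t y → y = u ∨ y = v := by
    intro y hy
    rcases hdeg t u v y hut.symm hvt.symm hy with h | h | h
    · exact absurd h huv
    · exact Or.inl h.symm
    · exact Or.inr h.symm
  refine ⟨col, ?_, ?_⟩
  · intro x y hxy
    by_cases hx : x ≠ u ∧ x ≠ v ∧ x ≠ w ∧ x ≠ t
    · by_cases hy : y ≠ u ∧ y ≠ v ∧ y ≠ w ∧ y ≠ t
      · rw [col1 x hx, col1 y hy]
        exact hc1 ⟨x, hx⟩ ⟨y, hy⟩ hxy
      · exfalso
        have hy' : y = u ∨ y = v ∨ y = w ∨ y = t := by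
          by_contra hcon
          push Not at hcon
          exact hy hcon
        rcases hy' with rfl | rfl | rfl | rfl
        · rcases nu x hxy.symm with h | h
          · exact hx.2.2.1 h
          · exact hx.2.2.2 h
        · rcases nv x hxy.symm with h | h
          · exact hx.2.2.1 h
          · exact hx.2.2.2 h
        · rcases nw x hxy.symm with h | h
          · exact hx.1 h
          · exact hx.2.1 h
        · rcases nt x hxy.symm with h | h
          · exact hx.1 h
          · exact hx.2.1 h
    · have hx' : x = u ∨ x = v ∨ x = w ∨ x = t := by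
        by_contra hcon
        push Not at hcon
        exact hx hcon
      rcases hx' with h | h | h | h
      · rw [h] at hxy ⊢
        rcases nu y hxy with h' | h' <;> rw [h', colu]
        · rw [colw]; exact cpr.symm
        · rw [colt]; exact cqr.symm
      · rw [h] at hxy ⊢
        rcases nv y hxy with h' | h' <;> rw [h', colv]
        · rw [colw]; exact cps.symm
        · rw [colt]; exact cqs.symm
      · rw [h] at hxy ⊢
        rcases nw y hxy with h' | h' <;> rw [h', colw]
        · rw [colu]; exact cpr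
        · rw [colv]; exact cps
      · rw [h] at hxy ⊢
        rcases nt y hxy with h' | h' <;> rw [h', colt]
        · rw [colu]; exact cqr
        · rw [colv]; exact cqs
  · intro x y hfxy hxy
    by_cases hx1 : f x = f u
    · have hy1 : f y = f u := hfxy.symm.trans hx1
      rcases hbu x hx1 with h1 | h1 | h1 | h1 <;> rcases hbu y hy1 with h2 | h2 | h2 | h2 <;>
        first
        | exact absurd (h1.trans h2.symm) hxy
        | (rw [h1, h2]
           simp only [colu, colv, colp, colq]
           first
           | exact cpq | exact cpq.symm | exact cpr | exact cpr.symm | exact cps | exact cps.symm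
           | exact cqr | exact cqr.symm | exact cqs | exact cqs.symm | exact crs | exact crs.symm)
    · by_cases hx2 : f x = f w
      · have hy2 : f y = f w := hfxy.symm.trans hx2
        rcases hbw x hx2 with h1 | h1 | h1 | h1 <;> rcases hbw y hy2 with h2 | h2 | h2 | h2 <;>
          first
          | exact absurd (h1.trans h2.symm) hxy
          | (rw [h1, h2]
             simp only [colw, colt, colr, cols]
             first
             | exact cpq | exact cpq.symm | exact cpr | exact cpr.symm | exact cps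
             | exact cps.symm | exact cqr | exact cqr.symm | exact cqs | exact cqs.symm
             | exact crs | exact crs.symm)
      · have key : ∀ z, f z ≠ f u → f z ≠ f w → z ≠ u ∧ z ≠ v ∧ z ≠ w ∧ z ≠ t := by
          intro z h1 h2
          refine ⟨?_, ?_, ?_, ?_⟩
          · rintro rfl; exact h1 rfl
          · rintro rfl; exact h1 hfv
          · rintro rfl; exact h2 rfl
          · rintro rfl; exact h2 hft
        have hx := key x hx1 hx2
        have hy := key y (by rwa [← hfxy]) (by rwa [← hfxy])
        rw [col1 x hx, col1 y hy]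
        apply hc2
        · have hy2 : f y ≠ f w := by rwa [← hfxy]
          simp only [f', hx2, hy2, if_false]
          exact hfxy
        · intro h
          exact hxy (congrArg Subtype.val h)

end Pool.Agent.H35.S4
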